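import Pool.Agent.MP_fcd29e_an.H11.CS

/-!
Bounds for the coefficient of the logarithm at a pole.
-/

set_option autoImplicit false

open Complex Set Filter Topology Metric Pool.Agent.MP_fcd29e_an.H81 Pool.Agent.MP_fcd29e_an.H11
open scoped ContDiff ComplexConjugate

namespace Pool.Agent.MP_fcd29e_an.H17

noncomputable section

namespace PS

variable {r : ℕ}

lemma nsq_nonneg (p : Fin r → ℂ) : 0 ≤ nsq p := Finset.sum_nonneg fun _ _ => sq_nonneg _

lemma norm_le {p : Fin r → ℂ} {R : ℝ} (hR : 0 ≤ R) (h : nsq p ≤ R ^ 2) : ‖p‖ ≤ R := by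
  refine (pi_norm_le_iff_of_nonneg hR).2 fun k => ?_
  have h1 : ‖p k‖ ^ 2 ≤ nsq p :=
    Finset.single_le_sum (f := fun k => ‖p k‖ ^ 2) (fun _ _ => sq_nonneg _) (Finset.mem_univ k)
  exact (pow_le_pow_iff_left₀ (norm_nonneg _) hR two_ne_zero).1 (h1.trans h)

lemma nsq_pos {p : Fin r → ℂ} (h : p ≠ 0) : 0 < nsq p := by
  refine (nsq_nonneg p).lt_of_ne fun e => h (norm_le_zero_iff.1 (norm_le le_rfl ?_))
  rw [← e]; norm_num

lemma nsq_smul (a : ℝ) (p : Fin r → ℂ) : nsq ((a : ℂ) • p) = a ^ 2 * nsq p := by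
  simp [nsq, mul_pow, Finset.mul_sum]

lemma ip_smul (a : ℂ) (p w : Fin r → ℂ) : ip (a • p) w = a * ip p w := by
  simp [ip, Finset.mul_sum, mul_assoc]

lemma psi_smul (l η Cs c S : ℝ) (w p : Fin r → ℂ) {a : ℝ} (ha : 0 < a) :
    psi l η Cs c S w ((a : ℂ) • p) = psi l η Cs c S w p := by
  have e : ip ((a : ℂ) • p) w / (√(nsq ((a : ℂ) • p)) : ℝ) = ip p w / (√(nsq p) : ℝ) := by
    rw [ip_smul, nsq_smul, Real.sqrt_mul (sq_nonneg a), Real.sqrt_sq ha.le, ofReal_mul,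
      mul_div_mul_left _ _ (ofReal_ne_zero.2 ha.ne')]
  simp only [psi, e]

/-- parameters and point -/
abbrev TP (r : ℕ) := (ℝ × ℝ × (Fin r → ℂ)) × (Fin r → ℂ)

lemma nsq_smooth : ContDiff ℝ ∞ (nsq : (Fin r → ℂ) → ℝ) := by
  unfold nsq
  exact ContDiff.sum fun k _ => (contDiff_norm_sq ℝ).comp (contDiff_apply ℝ ℂ k)

lemma joint (l η Cs : ℝ) (x : TP r) (hx : x.2 ≠ 0) :
    ContDiffAt ℝ ∞ (fun y : TP r => psi l η Cs y.1.1 y.1.2.1 y.1.2.2 y.2) x := by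
  have h1 : ContDiff ℝ ∞ fun y : TP r => ip y.2 y.1.2.2 := by
    unfold ip
    refine ContDiff.sum fun k _ => ContDiff.mul (by fun_prop) ?_
    exact conjCLE.contDiff.comp (f := fun y : TP r => y.1.2.2 k) (by fun_prop)
  have h2 : ContDiffAt ℝ ∞ (fun y : TP r => ((√(nsq y.2) : ℝ) : ℂ)) x :=
    ofRealCLM.contDiff.contDiffAt.comp x
      ((nsq_smooth.comp contDiff_snd).contDiffAt.sqrt (nsq_pos hx).ne')
  have h3 : ContDiffAt ℝ ∞ (fun y : TP r => ip y.2 y.1.2.2 / ((√(nsq y.2) : ℝ) : ℂ)) x := by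
    simp only [div_eq_mul_inv]
    exact h1.contDiffAt.mul (h2.inv (ofReal_ne_zero.2 (Real.sqrt_pos.2 (nsq_pos hx)).ne'))
  have h4 := reCLM.contDiff.contDiffAt.comp x h3
  have h5 := imCLM.contDiff.contDiffAt.comp x h3
  have h6 := (contDiff_norm_sq ℝ).contDiffAt.comp x h3
  have h7 : ContDiffAt ℝ ∞ (fun y : TP r => y.1.1) x := by fun_prop
  have h8 : ContDiffAt ℝ ∞ (fun y : TP r => y.1.2.1) x := by fun_prop
  have h9 := (contDiffAt_const (c := l)).mul h4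
  have h10 := (contDiffAt_const (c := l)).mul h5
  unfold psi lam
  exact ((contDiffAt_const.sub (contDiffAt_const.mul
    (((h9.exp.add h9.neg.exp).add h10.exp).add h10.neg.exp))).sub
    (((contDiffAt_const.mul h8).mul h4).add ((contDiffAt_const.mul h7).mul h6))).sub
    contDiffAt_const

lemma step {G : Type} [NormedAddCommGroup G] [NormedSpace ℝ G] (Φ : TP r → G)
    (h : ∀ x : TP r, x.2 ≠ 0 → ContDiffAt ℝ ∞ Φ x) (x : TP r) (hx : x.2 ≠ 0) :
    ContDiffAt ℝ ∞ (fun y : TP r => fderiv ℝ (fun q => Φ (y.1, q)) y.2) x := by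
  refine ContDiffAt.fderiv (n := ∞) (f := fun (y : TP r) q => Φ (y.1, q)) (g := Prod.snd) ?_
    contDiffAt_snd (by simp)
  exact ContDiffAt.comp (g := Φ) (f := fun z : TP r × (Fin r → ℂ) => (z.1.1, z.2)) _ (h _ hx)
    (by fun_prop)

/-- the compact set of parameters -/
def KK (r : ℕ) : Set (TP r) := closedBall 0 (4 * r + 2) ∩ {x | 1 / 4 ≤ nsq x.2}

lemma KK_compact : IsCompact (KK r) :=
  (isCompact_closedBall _ _).inter_right
    (isClosed_le continuous_const (nsq_smooth.continuous.comp continuous_snd))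

lemma KK_ne {x : TP r} (hx : x ∈ KK r) : x.2 ≠ 0 := fun e => by
  have h : 1 / 4 ≤ nsq x.2 := hx.2
  rw [e] at h
  simp [nsq] at h
  linarith

lemma mem_KK {c S : ℝ} {w p : Fin r → ℂ} (h : Ax c S w) (hc : c ≤ 4 * r + 1) (h1 : 1 / 4 ≤ nsq p)
    (h2 : ‖p‖ ≤ 2) : (((c, S, w), p) : TP r) ∈ KK r := by
  refine ⟨?_, h1⟩
  have hr : (0 : ℝ) ≤ r := Nat.cast_nonneg r
  have hw : ‖w‖ ≤ 1 := norm_le zero_le_one (by rw [h.unit]; norm_num)
  have hS : S ≤ c := by nlinarith [h.hyp, h.hc, h.hS]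
  simp only [mem_closedBall, dist_zero_right, Prod.norm_def, max_le_iff, Real.norm_eq_abs,
    abs_of_pos h.hc, abs_of_nonneg h.hS]
  refine ⟨⟨?_, ?_, ?_⟩, ?_⟩ <;> linarith

lemma bound {G : Type} [NormedAddCommGroup G] [NormedSpace ℝ G] (Φ : TP r → G)
    (h : ∀ x : TP r, x.2 ≠ 0 → ContDiffAt ℝ ∞ Φ x) : ∃ C, 0 ≤ C ∧ ∀ x ∈ KK r, ‖Φ x‖ ≤ C := by
  obtain ⟨C, hC⟩ := KK_compact.exists_bound_of_continuousOn (f := Φ)
    fun x hx => (h x (KK_ne hx)).continuousAt.continuousWithinAt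
  exact ⟨|C|, abs_nonneg _, fun x hx => (hC x hx).trans (le_abs_self _)⟩

end PS

open PS in
theorem sps (hGR : SGR) : SPS := by
  intro r l η Cs
  have hJ := joint (r := r) l η Cs
  have hΦ : ∀ x : TP r, x.2 ≠ 0 → ContDiffAt ℝ ∞
      (fun y : TP r => (nsq y.2 ^ 10)⁻¹ * psi l η Cs y.1.1 y.1.2.1 y.1.2.2 y.2) x := fun x hx =>
    (((nsq_smooth.comp contDiff_snd).contDiffAt.pow 10).inv
      (pow_pos (nsq_pos hx) 10).ne').mul (hJ x hx)
  obtain ⟨C₀, h₀, hC₀⟩ := bound _ hJ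
  obtain ⟨C₁, h₁, hC₁⟩ := bound _ (step _ hΦ)
  obtain ⟨C₂, h₂, hC₂⟩ := bound _ (step _ (step _ hΦ))
  obtain ⟨L, hL⟩ := LocallyLipschitzOn.exists_lipschitzOnWith_of_compact (KK_compact (r := r))
    (f := fun y : TP r => psi l η Cs y.1.1 y.1.2.1 y.1.2.2 y.2) fun x hx => by
      obtain ⟨K, t, ht, hK⟩ := ((hJ x (KK_ne hx)).of_le (by simp : (1 : WithTop ℕ∞) ≤ ∞)
        ).exists_lipschitzOnWith
      exact ⟨K, t, mem_nhdsWithin_of_mem_nhds ht, hK⟩
  have hL0 : (0 : ℝ) ≤ L := L.2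
  have hz : 0 ≤ |lam l η Cs 0 - 1 / 64| := abs_nonneg _
  refine ⟨2 * C₀ + C₁ + C₂ + L + |lam l η Cs 0 - 1 / 64|, by positivity, ?_⟩
  intro c S w hA hc
  have b0 : ∀ p, p ≠ 0 → |psi l η Cs c S w p| ≤ C₀ := by
    intro p hp
    have hs : 0 < √(nsq p) := Real.sqrt_pos.2 (nsq_pos hp)
    have e : nsq ((((√(nsq p))⁻¹ : ℝ) : ℂ) • p) = 1 := by
      rw [nsq_smul, inv_pow, Real.sq_sqrt (nsq_nonneg p), inv_mul_cancel₀ (nsq_pos hp).ne']
    rw [← psi_smul l η Cs c S w p (inv_pos.2 hs)]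
    have h := hC₀ _ (mem_KK hA hc (le_of_le_of_eq (by norm_num) e.symm)
      (norm_le (by norm_num) (e.le.trans (by norm_num))))
    rw [Real.norm_eq_abs] at h
    exact h
  have ne : ∀ p : Fin r → ℂ, 1 / 4 ≤ nsq p → p ≠ 0 := by
    rintro p hp rfl
    simp [nsq] at hp
    linarith
  refine ⟨fun p => ?_, fun p hp => ⟨?_, fun a ha => psi_smul l η Cs c S w p ha⟩,
    fun p p' hp hp' => ?_, fun p hp hp' => ?_⟩
  · by_cases hp : p = 0
    · have e : psi l η Cs c S w p = lam l η Cs 0 - 1 / 64 := by simp [hp, psi, ip]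
      rw [e]
      linarith
    · linarith [b0 p hp]
  · exact ContDiffAt.comp (g := fun y : TP r => psi l η Cs y.1.1 y.1.2.1 y.1.2.2 y.2)
      (f := fun q => ((c, S, w), q)) p (hJ _ hp) (by fun_prop)
  · have hq : 1 / 4 ≤ nsq p' := by rw [hp']; norm_num
    have hn : ‖p'‖ ≤ 1 := norm_le zero_le_one (by rw [hp']; norm_num)
    have hd := norm_nonneg (p - p')
    by_cases h : ‖p‖ ≤ 2
    · have h3 := hL.dist_le_mul _ (mem_KK hA hc hp h) _ (mem_KK hA hc hq (by linarith))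
      rw [Real.dist_eq, Prod.dist_eq, dist_self, dist_eq_norm, max_eq_right hd] at h3
      refine h3.trans (mul_le_mul_of_nonneg_right (by linarith) hd)
    · have h3 : 1 ≤ ‖p - p'‖ := by linarith [norm_sub_norm_le p p']
      have h4 := abs_sub (psi l η Cs c S w p) (psi l η Cs c S w p')
      have h5 := b0 p (ne p hp)
      have h6 := b0 p' (ne p' hq)
      nlinarith
  · have hm := mem_KK hA hc hp (norm_le (by norm_num) (by linarith))
    have k1 := hC₁ _ hm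
    have k2 := hC₂ _ hm
    exact ⟨le_trans k1 (by linarith), le_trans k2 (by linarith)⟩

end

end Pool.Agent.MP_fcd29e_an.H17
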