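import Pool.Agent.MP_fcd29e_an.H31.Spec3

/-! Dyadic sums in the Sobolev space of positive order. -/

set_option autoImplicit false

open MeasureTheory Complex Set Filter Topology Metric Pool.Agent.MP_fcd29e_an.H81
  Pool.Agent.MP_fcd29e_an.H31
open scoped ContDiff ComplexConjugate ENNReal NNReal FourierTransform SchwartzMap

namespace Pool.Agent.MP_fcd29e_an.H17

theorem sum_cs {α : Type} [MeasurableSpace α] (μ : Measure α) {f g : α → ℝ≥0∞}
    (hf : AEMeasurable f μ) (hg : AEMeasurable g μ) :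
    ∫⁻ a, f a * g a ∂μ ≤ (∫⁻ a, f a ^ 2 ∂μ) ^ (1 / 2 : ℝ) * (∫⁻ a, g a ^ 2 ∂μ) ^ (1 / 2 : ℝ) := by
  simpa only [Pi.mul_apply, ENNReal.rpow_two] using
    ENNReal.lintegral_mul_le_Lp_mul_Lq μ Real.HolderConjugate.two_two hf hg

theorem sum_sq (x : ℝ≥0∞) : (x ^ (1 / 2 : ℝ)) ^ 2 = x := by
  rw [← ENNReal.rpow_two, ← ENNReal.rpow_mul]
  norm_num

theorem dy_pos (j : ℕ) : 0 < dy j := by unfold dy; positivity

theorem sum_wcs (s : ℝ) (x y : ℕ → ℝ≥0∞) : (∑' j, x j * y j) ^ 2 ≤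
    (∑' j, ENNReal.ofReal (dy j ^ (-(2 * s))) * x j ^ 2) *
      ∑' j, ENNReal.ofReal (dy j ^ (2 * s)) * y j ^ 2 := by
  have e : ∀ (t : ℝ) (j : ℕ) (z : ℝ≥0∞),
      (ENNReal.ofReal (dy j ^ t) * z) ^ 2 = ENNReal.ofReal (dy j ^ (2 * t)) * z ^ 2 := by
    intro t j z
    rw [mul_pow, ← ENNReal.ofReal_pow (Real.rpow_nonneg (dy_pos j).le _), mul_comm 2 t,
      Real.rpow_mul (dy_pos j).le, Real.rpow_two]
  have h := sum_cs Measure.count (f := fun j => ENNReal.ofReal (dy j ^ (-s)) * x j)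
    (g := fun j => ENNReal.ofReal (dy j ^ s) * y j) (measurable_from_top).aemeasurable
    (measurable_from_top).aemeasurable
  simp only [lintegral_count, e, mul_neg] at h
  have e2 : ∀ j, ENNReal.ofReal (dy j ^ (-s)) * x j * (ENNReal.ofReal (dy j ^ s) * y j) =
      x j * y j := by
    intro j
    rw [mul_mul_mul_comm, ← ENNReal.ofReal_mul (Real.rpow_nonneg (dy_pos j).le _),
      ← Real.rpow_add (dy_pos j), neg_add_cancel, Real.rpow_zero, ENNReal.ofReal_one, one_mul]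
  simp only [e2] at h
  refine (pow_le_pow_left' h 2).trans_eq ?_
  rw [mul_pow, sum_sq, sum_sq]

theorem N2_eq {N : ℕ} (g : E N → ℂ) : N2 g = ∫⁻ x, ‖g x‖ₑ ^ 2 := by
  simp only [N2, ENNReal.ofReal_pow (norm_nonneg _), ofReal_norm]

theorem sum (L : Lv2) (h : StmtDY1) : StmtSUM := by
  intro N s hs k g hk hg hsum
  have ki : Integrable k := hk.1.continuous.integrable_of_hasCompactSupport hk.2
  have hsc := fun j => (L.fb N k ki).2.2.2.1 (dy j) (dy_pos j)
  have hu := fun j => (L.fb N _ (hsc j).1).2.2.2.2.1 (g j) (hg j)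
  set u : ℕ → E N → ℂ := fun j => Cv (Sc (dy j) k) (g j) with hu'
  have um : ∀ j, AEMeasurable (fun x => ‖u j x‖ₑ) volume := fun j => (hu j).1.1.enorm
  have Gm : AEMeasurable (fun x => ∑' j, ‖u j x‖ₑ) volume := AEMeasurable.tsum um
  have hA : ∑' j, ENNReal.ofReal (dy j ^ (2 * s)) < ⊤ := by
    obtain ⟨C, hC⟩ := L.geo (2 * s) (by linarith)
    have h1 := (hC 1 one_pos).1
    have h2 : ∀ j, dy j ≤ 1 := fun j => inv_le_one_of_one_le₀ (one_le_pow₀ one_le_two)
    simp only [h2, if_true] at h1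
    exact h1.trans_lt (ENNReal.mul_lt_top ENNReal.coe_lt_top ENNReal.ofReal_lt_top)
  have hG : ∫⁻ x, (∑' j, ‖u j x‖ₑ) ^ 2 < ⊤ := by
    calc _ ≤ ∫⁻ x, (∑' j, ENNReal.ofReal (dy j ^ (-(2 * s))) * ‖u j x‖ₑ ^ 2) *
          ∑' j, ENNReal.ofReal (dy j ^ (2 * s)) := lintegral_mono fun x => by
          simpa using sum_wcs s (fun j => ‖u j x‖ₑ) fun _ => 1
      _ = (∑' j, ENNReal.ofReal (dy j ^ (-(2 * s))) * N2 (u j)) *
          ∑' j, ENNReal.ofReal (dy j ^ (2 * s)) := by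
          rw [lintegral_mul_const' _ _ hA.ne,
            lintegral_tsum fun j => ((um j).pow_const 2).const_mul _]
          simp only [lintegral_const_mul' _ _ ENNReal.ofReal_ne_top, N2_eq]
      _ ≤ (∑' j, ENNReal.ofReal ((∫ y, ‖k y‖) ^ 2) *
          (ENNReal.ofReal (dy j ^ (-(2 * s))) * N2 (g j))) *
          ∑' j, ENNReal.ofReal (dy j ^ (2 * s)) := by
          refine mul_le_mul_left (ENNReal.tsum_le_tsum fun j => ?_) _
          rw [mul_left_comm, ← (hsc j).2.1]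
          exact mul_le_mul_right (hu j).2.1 _
      _ < ⊤ := by
          rw [ENNReal.tsum_mul_left]
          exact ENNReal.mul_lt_top (ENNReal.mul_lt_top ENNReal.ofReal_lt_top hsum) hA
  have hm : AEStronglyMeasurable (fun x => ∑' j, u j x) volume := by
    refine aestronglyMeasurable_of_tendsto_ae atTop
      (f := fun n x => ∑ j ∈ Finset.range n, u j x)
      (fun n => Finset.aestronglyMeasurable_fun_sum _ fun j _ => (hu j).1.1) ?_
    filter_upwards [ae_lt_top' (Gm.pow_const 2) hG.ne] with x hx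
    exact (tsum_enorm_ne_top_iff_summable_norm.1 fun e => by
      rw [e] at hx; simp at hx).of_norm.hasSum.tendsto_sum_nat
  refine ⟨⟨hm, ?_⟩, ?_⟩
  · rw [eLpNorm_lt_top_iff_lintegral_rpow_enorm_lt_top two_ne_zero ENNReal.ofNat_ne_top]
    refine lt_of_le_of_lt (lintegral_mono fun x => ?_) hG
    rw [ENNReal.toReal_ofNat, ENNReal.rpow_two]
    exact pow_le_pow_left' enorm_tsum_le_tsum_enorm 2
  have hk' := (L.fa N k hk).2.2.2.2.2.2.2.1
  obtain ⟨C, hC⟩ := h N s hs _ hk'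
  refine ⟨(∑' j, ENNReal.ofReal (dy j ^ (-(2 * s))) * N2 (g j)).toNNReal * C, fun ψ hψ => ?_⟩
  have ψm : AEStronglyMeasurable ψ volume := hψ.1.continuous.aestronglyMeasurable
  have e1 : ∫ x, (∑' j, u j x) * ψ x = ∑' j, ∫ x, u j x * ψ x := by
    rw [← integral_tsum (f := fun j x => u j x * ψ x) (fun j => (hu j).1.1.mul ψm)]
    · simp only [tsum_mul_right]
    · simp only [enorm_mul]
      rw [← lintegral_tsum (f := fun j x => ‖u j x‖ₑ * ‖ψ x‖ₑ) fun j => (um j).mul ψm.enorm]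
      simp only [ENNReal.tsum_mul_right]
      refine ne_top_of_le_ne_top ?_ (sum_cs _ Gm ψm.enorm)
      rw [← N2_eq]
      exact ENNReal.mul_ne_top (ENNReal.rpow_ne_top_of_nonneg (by norm_num) hG.ne)
        (ENNReal.rpow_ne_top_of_nonneg (by norm_num) (L.fa N ψ hψ).2.1.ne)
  have e2 : ∀ j, (fun x => Sc (dy j) k (-x)) = Sc (dy j) fun y => k (-y) := fun j => by
    funext x
    simp only [Sc, smul_neg]
  have e3 : ∀ j, ‖∫ x, u j x * ψ x‖ₑ ≤
      N2 (g j) ^ (1 / 2 : ℝ) * N2 (Cv (Sc (dy j) fun y => k (-y)) ψ) ^ (1 / 2 : ℝ) := by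
    intro j
    have t1 := (L.fa N _ hk').2.2.2.2.2.2.1 (dy j) (dy_pos j)
    have t2 := ((L.fb N _ (t1.1.continuous.integrable_of_hasCompactSupport t1.2)).2.2.2.2.2 t1.2 ψ
      hψ).1
    rw [(hu j).2.2 ψ hψ, e2, N2_eq, N2_eq]
    refine (enorm_integral_le_lintegral_enorm _).trans ?_
    simp only [enorm_mul]
    exact sum_cs _ (hg j).1.enorm t2.1.continuous.aestronglyMeasurable.enorm
  rw [ENNReal.ofReal_pow (norm_nonneg _), ofReal_norm, e1, ENNReal.coe_mul,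
    ENNReal.coe_toNNReal hsum.ne, mul_assoc]
  refine (pow_le_pow_left' (enorm_tsum_le_tsum_enorm.trans (ENNReal.tsum_le_tsum e3)) 2).trans
    ((sum_wcs s _ _).trans ?_)
  simp only [sum_sq]
  exact mul_le_mul_right (hC ψ hψ) _

end Pool.Agent.MP_fcd29e_an.H17
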